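import Pool.Agent.Lib.MP_b072d9_co.NMain
import Pool.Agent.Lib.MP_b072d9_co.TMain
import Pool.Agent.Lib.MP_b072d9_co.RMain

set_option autoImplicit false

/-!
# Centre and median of trees maximising the Wiener index at fixed diameter

For all `n` and `d` with `1 ≤ d ≤ n - 1`, every tree of maximum Wiener index among the trees on `n`
vertices with diameter `d` has a vertex which belongs both to its centre and to its median.
-/

namespace Pool.Agent.Results.MP_b072d9_co.CenterMedian

open Pool.Agent.Lib.MP_b072d9_co

/-- Every maximal tree has a vertex lying in its centre and in its median. -/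
theorem result (n d : ℕ) (hd : 1 ≤ d) (hdn : d ≤ n - 1) (T : SimpleGraph (Fin n))
    (hT : IsMaximal T d) : ∃ v : Fin n, IsCenter T v ∧ IsMedian T v :=
  BT.center_median_of (no_heavy_of numeric_main) n d hd hdn T hT

end Pool.Agent.Results.MP_b072d9_co.CenterMedian
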